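import Pool.Agent.helper43.DHB.SpecB

/-!
# Row d2:PERT (MP_5823cb_al, part G), helper67

Perturbation of the gap of a family, from the statements of helper43's chain.
-/

set_option autoImplicit false

open Filter Topology MeasureTheory
open scoped commutatorElement

namespace Pool.Agent.helper90.DH

open Pool.Agent.helper64.D2

theorem PERT_nm (hNMF : bNMF_stmt) (g : DD) (hg : Sz g (1 / 100)) : NM (1 / 100) (ev g) ∧ NM (1 / 20) (ev g) := by
  have h := (hNMF.1 g (1 / 100) (by norm_num) hg).1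
  refine ⟨h, ⟨h.cd, fun x => (h.sl x).trans (by norm_num), fun x => (h.ds x).trans (by norm_num)⟩⟩

theorem PERT_nsq_nonneg (f : ℝ → ℝ) : 0 ≤ nsq f := integral_nonneg (fun _ => sq_nonneg _)

/-- **PERT**. -/
theorem PERT (hROB : bROB_stmt) (hNIC : bNIC_stmt) (hNMF : bNMF_stmt) : PERT_stmt := by
  obtain ⟨K, hK1, hJ⟩ := hROB
  obtain ⟨hadd, hsc, _, hsum, _, hmink, _, _, hav, hcomp, hpa⟩ := hNIC
  refine ⟨K, hK1, ?_⟩
  intro q m φ c c' s lam η hSz hlam hη hη1 hcc hFG f hPA hSu hEs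
  have hK0 : 0 ≤ K := by linarith
  have hn0 : 0 ≤ nsq f := PERT_nsq_nonneg f
  have hNf : Nc f := hpa (s + 1) f hPA hSu
  have hfam : ∀ i ∈ fam q m φ, i < q ∧ i % m = φ := by
    intro i hi
    have h := Finset.mem_filter.1 hi
    exact ⟨Finset.mem_range.1 h.1, h.2⟩
  have hNL : ∀ i < q, NM (1 / 100) (ev (c i)) ∧ NM (1 / 20) (ev (c i)) := fun i hi => PERT_nm hNMF _ (hSz i hi).1
  have hNL' : ∀ i < q, NM (1 / 100) (ev (c' i)) ∧ NM (1 / 20) (ev (c' i)) := fun i hi => PERT_nm hNMF _ (hSz i hi).2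
  have hM : ∀ i < q, Nc (fun x => f (ev (c i) x)) := fun i hi =>
    (hcomp (ev (c i)) (1 / 100) f (by norm_num) (hNL i hi).1 hNf).1
  have hM' : ∀ i < q, Nc (fun x => f (ev (c' i) x)) := fun i hi =>
    (hcomp (ev (c' i)) (1 / 100) f (by norm_num) (hNL' i hi).1 hNf).1
  have hAM : ∀ i ∈ fam q m φ, Nc (fun x => f (ev (c' i) x) - f (ev (c i) x)) ∧
      nsq (fun x => f (ev (c' i) x) - f (ev (c i) x)) ≤ K * η * nsq f := by
    intro i hi
    obtain ⟨hi1, hi2⟩ := hfam i hi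
    exact ⟨(hadd _ _ (hM' i hi1) (hM i hi1)).2.1,
      hJ (ev (c i)) (ev (c' i)) s η f (hNL i hi1).2 (hNL' i hi1).2 hη hη1 (hcc i hi1 hi2) hPA hSu⟩
  have hAv : nsq (fun x => (∑ i ∈ fam q m φ, (f (ev (c' i) x) - f (ev (c i) x))) / (fam q m φ).card) ≤ K * η * nsq f :=
    hav ℕ (fam q m φ) (fun i x => f (ev (c' i) x) - f (ev (c i) x)) (K * η * nsq f)
      (mul_nonneg (mul_nonneg hK0 hη) hn0) hAM
  have hAvM : Nc (fun x => (∑ i ∈ fam q m φ, (f (ev (c' i) x) - f (ev (c i) x))) / ((fam q m φ).card : ℝ)) :=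
    (hsc _ ((fam q m φ).card : ℝ) (hsum ℕ (fam q m φ) (fun i x => f (ev (c' i) x) - f (ev (c i) x))
      (fun i hi => (hAM i hi).1))).2.1
  have hTM : Nc (Tf q m φ c f) :=
    (hsc _ ((fam q m φ).card : ℝ) (hsum ℕ (fam q m φ) (fun i x => f (ev (c i) x))
      (fun i hi => hM i (hfam i hi).1))).2.1
  have hsplit : Tf q m φ c' f = fun x => Tf q m φ c f x +
      (∑ i ∈ fam q m φ, (f (ev (c' i) x) - f (ev (c i) x))) / ((fam q m φ).card : ℝ) := by
    funext x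
    unfold Tf
    rw [← add_div, ← Finset.sum_add_distrib]
    congr 1
    refine Finset.sum_congr rfl (fun i _ => ?_)
    ring
  have hmk := hmink (Tf q m φ c f) _ hTM hAvM
  rw [← hsplit] at hmk
  have hT : nsq (Tf q m φ c f) ≤ lam ^ 2 * nsq f := hFG f hPA hSu hEs
  have hs1 : √(nsq (Tf q m φ c f)) ≤ lam * √(nsq f) := by
    refine (Real.sqrt_le_sqrt hT).trans ?_
    rw [Real.sqrt_mul (sq_nonneg _), Real.sqrt_sq hlam]
  have hs2 : √(nsq (fun x => (∑ i ∈ fam q m φ, (f (ev (c' i) x) - f (ev (c i) x))) / ((fam q m φ).card : ℝ))) ≤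
      K * √η * √(nsq f) := by
    refine (Real.sqrt_le_sqrt hAv).trans ?_
    rw [Real.sqrt_mul (mul_nonneg hK0 hη), Real.sqrt_mul hK0]
    have hKs : √K ≤ K := by
      rw [Real.sqrt_le_left hK0]
      nlinarith
    exact mul_le_mul_of_nonneg_right (mul_le_mul_of_nonneg_right hKs (Real.sqrt_nonneg _)) (Real.sqrt_nonneg _)
  have hs3 : √(nsq (Tf q m φ c' f)) ≤ (lam + K * √η) * √(nsq f) := by
    calc √(nsq (Tf q m φ c' f)) ≤ _ := hmk
      _ ≤ lam * √(nsq f) + K * √η * √(nsq f) := add_le_add hs1 hs2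
      _ = (lam + K * √η) * √(nsq f) := by ring
  have h1 : nsq (Tf q m φ c' f) = √(nsq (Tf q m φ c' f)) ^ 2 := (Real.sq_sqrt (PERT_nsq_nonneg _)).symm
  have h2 : nsq f = √(nsq f) ^ 2 := (Real.sq_sqrt hn0).symm
  calc nsq (Tf q m φ c' f) = √(nsq (Tf q m φ c' f)) ^ 2 := h1
    _ ≤ ((lam + K * √η) * √(nsq f)) ^ 2 := pow_le_pow_left₀ (Real.sqrt_nonneg _) hs3 2
    _ = (lam + K * √η) ^ 2 * √(nsq f) ^ 2 := by ring
    _ = (lam + K * √η) ^ 2 * nsq f := by rw [← h2]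

end Pool.Agent.helper90.DH
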